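import Pool.Agent.H74.OVL.L4

/-!
Ovoids of `PG(3, 2^h)`, layer 1: L3 = FACT 1' (three letters at the digit 0, none at the digit 1).
-/

set_option autoImplicit false
set_option linter.unusedSectionVars false

namespace Pool.OVL

open Finset

section L3
variable {F : Type} [Field F] [Fintype F] [CharP F 2] {h : ℕ} [NeZero h]
  {Om : Type} [Fintype Om] {y : Om → Fin 4 → F}

/-- the sum over the digits outside `{1}`, as a sum over words -/
theorem kernel1 (u v : Fin 4 → F) (s : Fin 4) :
    ∏ k ∈ ({1} : Finset (ZMod h))ᶜ, fr k (om u v)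
      = ∑ w : ZMod h → Fin 4, (if w 1 = s then wx {1} (sg w) u else 0) * wx {1} w v := by
  classical
  have h1 : ∀ k : ZMod h, fr k (om u v) = ∑ i, fr k (u (Fin.rev i)) * fr k (v i) := by
    intro k
    rw [om_sum, fr_sum]
    exact sum_congr rfl fun i _ => fr_mul _ _ _
  have h2 : ∏ k ∈ ({1} : Finset (ZMod h))ᶜ, fr k (om u v)
      = ∏ k : ZMod h, ∑ i, (if k = 1 then (if i = s then 1 else 0) else
          fr k (u (Fin.rev i)) * fr k (v i)) := by
    rw [← prod_mul_prod_compl ({1} : Finset (ZMod h)) (fun k => ∑ i, (if k = 1 then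
      (if i = s then (1 : F) else 0) else fr k (u (Fin.rev i)) * fr k (v i))), prod_singleton]
    have e1 : (∑ i : Fin 4, (if (1 : ZMod h) = 1 then (if i = s then (1 : F) else 0) else
            fr (1 : ZMod h) (u (Fin.rev i)) * fr (1 : ZMod h) (v i))) = 1 := by
      simp
    rw [e1, one_mul]
    apply prod_congr rfl
    intro k hk
    simp only [mem_compl, mem_singleton] at hk
    rw [h1 k]
    apply sum_congr rfl
    intro i _
    rw [if_neg hk]
  rw [h2, prod_sum_words]
  apply sum_congr rfl
  intro w _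
  rw [← prod_mul_prod_compl ({1} : Finset (ZMod h)), prod_singleton, if_pos rfl]
  have h3 : ∏ k ∈ ({1} : Finset (ZMod h))ᶜ, (if k = 1 then (if w k = s then (1 : F) else 0) else
            fr k (u (Fin.rev (w k))) * fr k (v (w k)))
      = wx {1} (sg w) u * wx {1} w v := by
    unfold wx
    rw [← prod_mul_distrib]
    apply prod_congr rfl
    intro k hk
    simp only [mem_compl, mem_singleton] at hk
    rw [if_neg hk]
    rfl
  rw [h3]
  by_cases hs : w 1 = s
  · rw [if_pos hs, if_pos hs]; ring
  · rw [if_neg hs, if_neg hs]; ring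

/-- the product over the digits other than `0` -/
theorem prod_ne_zero (hh : 2 ≤ h) (c : F) :
    ∏ k ∈ ({0} : Finset (ZMod h))ᶜ, fr k c = c ^ (2 ^ h - 2) := by
  classical
  have hq : 4 ≤ 2 ^ h := by
    calc 4 = 2 ^ 2 := rfl
      _ ≤ 2 ^ h := Nat.pow_le_pow_right (by norm_num) hh
  have h1 := prod_fr (h := h) c
  rw [← prod_mul_prod_compl ({0} : Finset (ZMod h)), prod_singleton, fr_zero_idx] at h1
  by_cases hc : c = 0
  · have : Fact (1 < h) := ⟨hh⟩
    subst hc
    have h3 : (1 : ZMod h) ∈ ({0} : Finset (ZMod h))ᶜ := by simp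
    rw [prod_eq_zero h3 (fr_zero' _), zero_pow]
    omega
  · apply mul_left_cancel₀ hc
    rw [h1, ← pow_succ']
    congr 1
    omega

theorem sum_field (hq : 2 < Fintype.card F) : ∑ c : F, c = 0 := by
  have h1 := FiniteField.sum_pow_lt_card_sub_one F 1 (by omega)
  simpa using h1

open Classical in
/-- `sum_c c (A + c X)^(q-1) = A X^(q-2)` -/
theorem sum_c (hq : 2 < Fintype.card F) (A X : F) :
    ∑ c : F, c * (A + c * X) ^ (Fintype.card F - 1) = A * X ^ (Fintype.card F - 2) := by
  by_cases hX : X = 0
  · subst hX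
    have h1 : ∀ c : F, c * (A + c * 0) ^ (Fintype.card F - 1) = c * A ^ (Fintype.card F - 1) := by
      intro c; rw [mul_zero, add_zero]
    rw [sum_congr rfl fun c _ => h1 c, ← sum_mul, sum_field hq, zero_mul, zero_pow (by omega),
      mul_zero]
  · have h1 : ∀ c : F, c * (A + c * X) ^ (Fintype.card F - 1)
        = c + (if c = A / X then A / X else 0) := by
      intro c
      by_cases hc : c = A / X
      · subst hc
        rw [div_mul_cancel₀ A hX, add_self', zero_pow (by omega), if_pos rfl, mul_zero, add_self']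
      · rw [if_neg hc, add_zero]
        have h2 : A + c * X ≠ 0 := by
          intro e
          apply hc
          rw [eq_div_iff hX]
          have h3 := add_self' A
          linear_combination e - h3
        rw [FiniteField.pow_card_sub_one_eq_one _ h2, mul_one]
    rw [sum_congr rfl fun c _ => h1 c, sum_add_distrib, sum_field hq, zero_add,
      Finset.sum_ite_eq']
    simp only [mem_univ, if_true]
    rw [div_eq_iff hX, mul_assoc, ← pow_succ]
    have h3 : Fintype.card F - 2 + 1 = Fintype.card F - 1 := by omega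
    rw [h3, FiniteField.pow_card_sub_one_eq_one _ hX, mul_one]

theorem q8 (hy : Ovd F h Om y) : 8 ≤ Fintype.card F := by
  rw [hy.cq]
  calc 8 = 2 ^ 3 := rfl
    _ ≤ 2 ^ h := Nat.pow_le_pow_right (by norm_num) hy.hh

/-- the form at `x` -/
noncomputable def Bx (y : Om → Fin 4 → F) (x a b : Fin 4 → F) : F :=
  ∑ o, om a (y o) * om b (y o) * om x (y o) ^ (Fintype.card F - 3)

theorem om_add_left (a b v : Fin 4 → F) : om (a + b) v = om a v + om b v := by
  unfold om; simp only [Pi.add_apply]; ring

theorem om_smul_left (c : F) (b v : Fin 4 → F) : om (c • b) v = c * om b v := by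
  unfold om; simp only [Pi.smul_apply, smul_eq_mul]; ring

theorem om_add_right (v a b : Fin 4 → F) : om v (a + b) = om v a + om v b := by
  unfold om; simp only [Pi.add_apply]; ring

theorem om_smul_right (c : F) (v b : Fin 4 → F) : om v (c • b) = c * om v b := by
  unfold om; simp only [Pi.smul_apply, smul_eq_mul]; ring

theorem Bx_symm (x a b : Fin 4 → F) : Bx y x a b = Bx y x b a := by
  unfold Bx
  exact sum_congr rfl fun o _ => by ring

theorem Bx_perp (hy : Ovd F h Om y) (x a b : Fin 4 → F) (hxa : om x a = 0) : Bx y x a b = 0 := by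
  classical
  have hq := q8 hy
  have hh1 : 2 ≤ h := h2le hy
  -- the identity for every `c`
  have h1 : ∀ c : F, ∑ o, om b (y o) * om x (y o) ^ (2 ^ h - 2) *
      om (a + c • x) (y o) ^ (2 ^ h - 1) = 0 := by
    intro c
    have e := eval_lin hy (fun k i => if k = 0 then b (Fin.rev i) else x (Fin.rev i)) (a + c • x)
    have e2 : ∀ v : Fin 4 → F, (∏ k : ZMod h, fr k (∑ i, (if k = 0 then b (Fin.rev i) else
        x (Fin.rev i)) * v i)) = om b v * om x v ^ (2 ^ h - 2) := by
      intro v
      rw [← prod_mul_prod_compl ({0} : Finset (ZMod h)), prod_singleton, fr_zero_idx,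
        ← prod_ne_zero hh1 (om x v)]
      congr 1
      · simp only [if_true]; exact (om_sum b v).symm
      · apply prod_congr rfl
        intro k hk
        simp only [mem_compl, mem_singleton] at hk
        rw [om_sum x v]
        simp only [if_neg hk]
    simp only [e2] at e
    have hz : om x (a + c • x) = 0 := by
      rw [om_add_right, om_smul_right, om_self, hxa, mul_zero, add_zero]
    rw [e, hz, zero_pow, mul_zero]
    rw [hy.cq] at hq
    omega
  have h2 : ∑ c : F, c * ∑ o, om b (y o) * om x (y o) ^ (2 ^ h - 2) *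
      om (a + c • x) (y o) ^ (2 ^ h - 1) = 0 := by
    apply sum_eq_zero
    intro c _
    rw [h1 c, mul_zero]
  simp only [mul_sum] at h2
  rw [sum_comm] at h2
  rw [← h2]
  unfold Bx
  apply sum_congr rfl
  intro o _
  have h3 := sum_c (F := F) (by omega) (om a (y o)) (om x (y o))
  have h4 : ∀ c : F, c * (om b (y o) * om x (y o) ^ (2 ^ h - 2) *
      om (a + c • x) (y o) ^ (2 ^ h - 1)) = (om b (y o) * om x (y o) ^ (Fintype.card F - 2)) *
        (c * (om a (y o) + c * om x (y o)) ^ (Fintype.card F - 1)) := by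
    intro c
    rw [om_add_left, om_smul_left, hy.cq]; ring
  rw [sum_congr rfl fun c _ => h4 c, ← mul_sum, h3]
  by_cases hX : om x (y o) = 0
  · rw [hX, zero_pow (by omega), zero_pow (by omega)]; ring
  · have h5 : om x (y o) ^ (Fintype.card F - 2) * om x (y o) ^ (Fintype.card F - 2)
        = om x (y o) ^ (Fintype.card F - 3) := by
      have e1 : Fintype.card F - 2 = (Fintype.card F - 3) + 1 := by omega
      have e2 : (Fintype.card F - 3) + 1 + (Fintype.card F - 2)
          = (Fintype.card F - 3) + (Fintype.card F - 1) := by omega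
      rw [← pow_add]
      nth_rewrite 1 [e1]
      rw [e2, pow_add, FiniteField.pow_card_sub_one_eq_one _ hX, mul_one]
    linear_combination (- om a (y o) * om b (y o)) * h5

theorem Bx_self (hy : Ovd F h Om y) (x a : Fin 4 → F) : Bx y x a a = 0 := by
  classical
  have hq := q8 hy
  have e := one_lin hy (fun k i => if k = 1 then a (Fin.rev i) else x (Fin.rev i))
  rw [← e]
  unfold Bx
  apply sum_congr rfl
  intro o _
  rw [← prod_mul_prod_compl ({1} : Finset (ZMod h)), prod_singleton]
  simp only [if_true]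
  rw [← om_sum, fr_one_idx (h2le hy)]
  congr 1
  have e1 : ∏ k ∈ ({1} : Finset (ZMod h))ᶜ, fr k (∑ i, (if k = 1 then a (Fin.rev i) else
      x (Fin.rev i)) * y o i) = ∏ k ∈ ({1} : Finset (ZMod h))ᶜ, fr k (om x (y o)) := by
    apply prod_congr rfl
    intro k hk
    simp only [mem_compl, mem_singleton] at hk
    rw [om_sum]
    simp only [if_neg hk]
  rw [e1]
  have h1 := prod_fr (h := h) (om x (y o))
  rw [← prod_mul_prod_compl ({1} : Finset (ZMod h)), prod_singleton, fr_one_idx (h2le hy),
    ← hy.cq] at h1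
  by_cases hX : om x (y o) = 0
  · rw [hX]
    have h3 : (0 : ZMod h) ∈ ({1} : Finset (ZMod h))ᶜ := by simp [one_ne hy]
    rw [prod_eq_zero h3 (fr_zero' _), zero_pow (by omega)]
  · apply mul_left_cancel₀ (mul_ne_zero hX hX)
    rw [h1, ← pow_two, ← pow_add]
    congr 1
    omega

theorem Bx_add_left (x a b c : Fin 4 → F) : Bx y x (a + b) c = Bx y x a c + Bx y x b c := by
  unfold Bx
  rw [← sum_add_distrib]
  exact sum_congr rfl fun o _ => by rw [om_add_left]; ring

theorem Bx_smul_left (x a c : Fin 4 → F) (r : F) : Bx y x (r • a) c = r * Bx y x a c := by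
  unfold Bx
  rw [mul_sum]
  exact sum_congr rfl fun o _ => by rw [om_smul_left]; ring

theorem Bx_zero (hy : Ovd F h Om y) (x a b : Fin 4 → F) : Bx y x a b = 0 := by
  by_cases ha : om x a = 0
  · exact Bx_perp hy x a b ha
  by_cases hb : om x b = 0
  · rw [Bx_symm]; exact Bx_perp hy x b a hb
  have h1 := Bx_perp hy x (om x b • a + om x a • b) b (by
    rw [om_add_right, om_smul_right, om_smul_right]
    have := add_self' (om x a * om x b)
    linear_combination this)
  rw [Bx_add_left, Bx_smul_left, Bx_smul_left, Bx_self hy, mul_zero, add_zero] at h1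
  exact (mul_eq_zero.mp h1).resolve_left hb

/-- letters as linear forms -/
theorem letter_om (i : Fin 4) (v : Fin 4 → F) : v i = om (Pi.single (Fin.rev i) 1) v := by
  rw [om_sum, Finset.sum_eq_single i]
  · rw [Pi.single_eq_same, one_mul]
  · intro b _ hb
    rw [Pi.single_eq_of_ne, zero_mul]
    intro e; exact hb (Fin.rev_inj.mp e)
  · intro hb; exact absurd (mem_univ _) hb

theorem t_l3 : L3Stmt := by
  classical
  intro F _ _ _ h _ Om _ y hy i j w0
  have hq := q8 hy
  set g : (ZMod h → Fin 4) → F := fun w => ∑ o, y o i * y o j * wx {1} w (y o) with hg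
  -- for every x
  have h1 : ∀ x : Fin 4 → F, ∑ w : ZMod h → Fin 4,
      (if w 1 = w0 1 then wx ∅ (sg w) x else 0) * g w = 0 := by
    intro x
    have e := Bx_zero hy x (Pi.single (Fin.rev i) 1) (Pi.single (Fin.rev j) 1)
    unfold Bx at e
    have e1 : ∀ o, om (Pi.single (Fin.rev i) 1) (y o) * om (Pi.single (Fin.rev j) 1) (y o) *
        om x (y o) ^ (Fintype.card F - 3) = ∑ w : ZMod h → Fin 4,
        (if w 1 = w0 1 then wx {1} (sg w) x else 0) * (y o i * y o j * wx {1} w (y o)) := by
      intro o
      rw [← letter_om, ← letter_om]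
      have e2 : om x (y o) ^ (Fintype.card F - 3) = ∏ k ∈ ({1} : Finset (ZMod h))ᶜ,
          fr k (om x (y o)) := by
        have h1 := prod_fr (h := h) (om x (y o))
        rw [← prod_mul_prod_compl ({1} : Finset (ZMod h)), prod_singleton, fr_one_idx (h2le hy),
          ← hy.cq] at h1
        by_cases hX : om x (y o) = 0
        · rw [hX]
          have h3 : (0 : ZMod h) ∈ ({1} : Finset (ZMod h))ᶜ := by simp [one_ne hy]
          rw [prod_eq_zero h3 (fr_zero' _), zero_pow (by omega)]
        · apply mul_left_cancel₀ (mul_ne_zero hX hX)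
          rw [h1, ← pow_two, ← pow_add]
          congr 1
          omega
      rw [e2, kernel1 x (y o) (w0 1), mul_sum]
      apply sum_congr rfl
      intro w _
      ring
    rw [sum_congr rfl fun o _ => e1 o, sum_comm] at e
    have e3 : ∑ w : ZMod h → Fin 4, (if w 1 = w0 1 then wx {1} (sg w) x else 0) * g w = 0 := by
      refine Eq.trans ?_ e
      apply sum_congr rfl
      intro w _
      rw [hg, mul_sum]
    have e4 := congrArg (fun t => fr (1 : ZMod h) (x (Fin.rev (w0 1))) * t) e3
    simp only [mul_zero] at e4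
    refine Eq.trans ?_ e4
    rw [mul_sum]
    apply sum_congr rfl
    intro w _
    by_cases hw : w 1 = w0 1
    · rw [if_pos hw, if_pos hw, wx_insert (k := 1) (by simp)]
      have : sg w 1 = Fin.rev (w0 1) := by unfold sg; rw [hw]
      rw [this]
      have e5 : insert (1 : ZMod h) (∅ : Finset (ZMod h)) = {1} := by simp
      rw [e5]; ring
    · rw [if_neg hw, if_neg hw]; ring
  -- inversion
  have h2 : ∑ p, wx ∅ w0 (y p) * (∑ w : ZMod h → Fin 4,
      (if w 1 = w0 1 then wx ∅ (sg w) (y p) else 0) * g w) = 0 := by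
    apply sum_eq_zero
    intro p _
    rw [h1, mul_zero]
  simp only [mul_sum] at h2
  rw [sum_comm] at h2
  have h3 : ∀ w : ZMod h → Fin 4, ∑ p, wx ∅ w0 (y p) *
      ((if w 1 = w0 1 then wx ∅ (sg w) (y p) else 0) * g w) = if w = w0 then g w0 else 0 := by
    intro w
    by_cases hw : w 1 = w0 1
    · have e1 : ∀ p, wx ∅ w0 (y p) * ((if w 1 = w0 1 then wx ∅ (sg w) (y p) else 0) * g w)
          = (wx ∅ w0 (y p) * wx ∅ (sg w) (y p)) * g w := by
        intro p; rw [if_pos hw]; ring
      rw [sum_congr rfl fun p _ => e1 p, ← sum_mul, fact1 hy]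
      by_cases hww : w = w0
      · subst hww; rw [if_pos rfl, if_pos rfl, one_mul]
      · rw [if_neg (fun e => hww (sg_inj e)), if_neg hww, zero_mul]
    · have hww : w ≠ w0 := fun e => hw (by rw [e])
      rw [if_neg hww]
      apply sum_eq_zero
      intro p _
      rw [if_neg hw, zero_mul, mul_zero]
  rw [sum_congr rfl fun w _ => h3 w, Finset.sum_ite_eq'] at h2
  simpa [hg] using h2

end L3

end Pool.OVL
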