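import Pool.Agent.H74.OVL.L5
import Pool.Agent.H74.OVL.L3
import Pool.Agent.H86.OVL.L6
import Pool.Agent.H41.OVO.Stmt

/-!
Ovoids of `PG(3, 2^h)`, layer 1: the conversion of L3 - L6 into `Pool.OVE.BaseStmt`.
-/

set_option autoImplicit false
set_option linter.unusedSectionVars false

namespace Pool.OVL

open Finset

theorem t_l5' : L5Stmt := t_l5 t_l3

theorem t_l5k' : L5kStmt := t_l5k t_l5'

theorem t_l6 : L6Stmt := Pool.Agent.H86.OVL.l6 t_ep t_l3 t_l4 t_l5k'

section conv
variable {F : Type} [Field F] [Fintype F] [CharP F 2] {h : ℕ} [NeZero h]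

theorem br_rev (i : Fin 4) : Pool.OVE.br i = Fin.rev i := by
  revert i; decide

theorem wbr_sg (w : ZMod h → Fin 4) : Pool.OVE.wbr w = sg w := by
  funext k; exact br_rev (w k)

theorem hat_wx (v : Fin 4 → F) (w : ZMod h → Fin 4) : Pool.OVE.hat v w = wx ∅ w v := by
  unfold wx
  rw [compl_empty]
  rfl

theorem om_eq (u v : Fin 4 → F) : Pool.OVE.om u v = om u v := by
  unfold om Pool.OVE.om; ring

theorem sum_upd (k : ZMod h) (a j : Fin 4) (G : (ZMod h → Fin 4) → F) :
    ∑ w : ZMod h → Fin 4, (if w k = a then G (Function.update w k j) else 0)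
      = ∑ w : ZMod h → Fin 4, (if w k = j then G w else 0) := by
  classical
  rw [← sum_filter, ← sum_filter]
  refine Finset.sum_nbij' (fun w => Function.update w k j) (fun w => Function.update w k a)
    ?_ ?_ ?_ ?_ ?_
  · intro w hw; simp
  · intro w hw; simp
  · intro w hw
    simp only [mem_filter, mem_univ, true_and] at hw
    simp only [Function.update_idem]
    rw [← hw, Function.update_eq_self]
  · intro w hw
    simp only [mem_filter, mem_univ, true_and] at hw
    simp only [Function.update_idem]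
    rw [← hw, Function.update_eq_self]
  · intro w hw; rfl

variable {Om : Type} [Fintype Om]

open Classical in
/-- the matrix of the operator -/
noncomputable def Mt (y : Om → Fin 4 → F) (i : Fin 4) (w w' : ZMod h → Fin 4) : F :=
  if w' 0 = w 0 ∧ w' 1 = w 1 then TT y (Fin.rev i) w (sg w') else 0

/-- the operator -/
noncomputable def Th (y : Om → Fin 4 → F) (i : Fin 4) :
    Module.End F (Pool.OVE.E F h) where
  toFun φ := fun w => ∑ w' : ZMod h → Fin 4, Mt y i w w' * φ w'
  map_add' φ ψ := by
    funext w; simp [mul_add, sum_add_distrib]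
  map_smul' c φ := by
    funext w
    simp only [Pi.smul_apply, smul_eq_mul, RingHom.id_apply, mul_sum]
    exact sum_congr rfl fun w' _ => by ring

theorem Th_apply (y : Om → Fin 4 → F) (i : Fin 4) (φ : Pool.OVE.E F h) (w : ZMod h → Fin 4) :
    Th y i φ w = ∑ w' : ZMod h → Fin 4, Mt y i w w' * φ w' := rfl

theorem TT_symm (y : Om → Fin 4 → F) (i : Fin 4) (w w' : ZMod h → Fin 4) :
    TT y i w w' = TT y i w' w := by
  unfold TT
  exact sum_congr rfl fun o _ => by ring

theorem TT_congr (y : Om → Fin 4 → F) (i : Fin 4) {w w' u u' : ZMod h → Fin 4}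
    (e : ∀ j, j ≠ 0 → j ≠ 1 → w j = u j) (e' : ∀ j, j ≠ 0 → j ≠ 1 → w' j = u' j) :
    TT y i w w' = TT y i u u' := by
  unfold TT
  apply sum_congr rfl
  intro o _
  rw [wx_congr (w := w) (w' := u), wx_congr (w := w') (w' := u')]
  · intro j hj
    simp only [mem_insert, mem_singleton, not_or] at hj
    exact e' j hj.1 hj.2
  · intro j hj
    simp only [mem_insert, mem_singleton, not_or] at hj
    exact e j hj.1 hj.2

theorem Mt_adj (y : Om → Fin 4 → F) (i : Fin 4) (w w' : ZMod h → Fin 4) :
    Mt y i w w' = Mt y i (sg w') (sg w) := by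
  classical
  unfold Mt
  have hiff : (sg w 0 = sg w' 0 ∧ sg w 1 = sg w' 1) ↔ (w' 0 = w 0 ∧ w' 1 = w 1) := by
    unfold sg
    rw [Fin.rev_inj, Fin.rev_inj]
    constructor
    · rintro ⟨a, b⟩; exact ⟨a.symm, b.symm⟩
    · rintro ⟨a, b⟩; exact ⟨a.symm, b.symm⟩
  by_cases hc : w' 0 = w 0 ∧ w' 1 = w 1
  · rw [if_pos hc, if_pos (hiff.mpr hc), sg_sg, TT_symm]
  · rw [if_neg hc, if_neg (fun e => hc (hiff.mp e))]

theorem Th_sa (y : Om → Fin 4 → F) (i : Fin 4) (φ ψ : Pool.OVE.E F h) :
    Pool.OVE.bf (Th y i φ) ψ = Pool.OVE.bf φ (Th y i ψ) := by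
  unfold Pool.OVE.bf
  simp only [Th_apply, wbr_sg, sum_mul, mul_sum]
  rw [sum_comm]
  apply sum_congr rfl
  intro w' _
  rw [← Equiv.sum_comp (sgE h)]
  apply sum_congr rfl
  intro w _
  show Mt y i (sg w) w' * φ w' * ψ (sg (sg w)) = φ w' * (Mt y i (sg w') w * ψ w)
  rw [Mt_adj y i (sg w) w', sg_sg]
  ring

theorem Th_e5 (y : Om → Fin 4 → F) (hy : Ovd F h Om y) (p : Om) :
    ∑ i, (y p i) ^ 2 • Th y i (Pool.OVE.hat (y p)) = Qf (y p) • (Pool.OVE.hat (y p) : Pool.OVE.E F h) := by
  classical
  funext w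
  rw [Finset.sum_apply]
  simp only [Pi.smul_apply, smul_eq_mul, Th_apply, hat_wx]
  have h1 := t_l5' F h Om y hy p w
  have h2 : Qf (y p) * wx ∅ w (y p) = (y p (w 0) * fr (1 : ZMod h) (y p (w 1))) *
      (Qf (y p) * wx {0, 1} w (y p)) := by
    rw [wx_zero_two hy]; ring
  rw [h2, h1, mul_sum]
  apply sum_congr rfl
  intro i _
  rw [← fr_one_idx (h2le hy) (y p i) |>.trans (pow_two _).symm, mul_sum, mul_sum, mul_sum]
  apply sum_congr rfl
  intro w' _
  unfold Mt
  by_cases hc : w' 0 = w 0 ∧ w' 1 = w 1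
  · rw [if_pos hc, wx_zero_two hy w' (y p), hc.1, hc.2]; ring
  · rw [if_neg hc]; ring

/-- the condition on one of the digits `0`, `1` and the rest of the matrix -/
theorem Th_rho (y : Om → Fin 4 → F) (i : Fin 4) (k : ZMod h) (C : (ZMod h → Fin 4) → (ZMod h → Fin 4) → F)
    (hC : ∀ w w', Mt y i w w' = if w' k = w k then C w w' else 0)
    (hC2 : ∀ w w' a b, C (Function.update w k a) (Function.update w' k b) = C w w')
    (M : Matrix (Fin 4) (Fin 4) F) (φ : Pool.OVE.E F h) :
    Th y i (Pool.OVE.rho k M φ) = Pool.OVE.rho k M (Th y i φ) := by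
  classical
  funext w
  rw [Th_apply, Pool.OVE.rho_apply]
  simp only [Pool.OVE.rho_apply, Th_apply, mul_sum]
  rw [sum_comm]
  apply sum_congr rfl
  intro j _
  have e1 : ∀ w' : ZMod h → Fin 4, Mt y i w w' * (M (w' k) j * φ (Function.update w' k j))
      = if w' k = w k then (fun w'' => M (w k) j * (C w w'' * φ w'')) (Function.update w' k j)
        else 0 := by
    intro w'
    rw [hC]
    by_cases hk : w' k = w k
    · rw [if_pos hk, if_pos hk, hk]
      have h2 : C w (Function.update w' k j) = C w w' := by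
        have h3 := hC2 w w' (w k) j
        rwa [Function.update_eq_self] at h3
      simp only [h2]; ring
    · rw [if_neg hk, if_neg hk, zero_mul]
  rw [sum_congr rfl fun w' _ => e1 w']
  refine (sum_upd k (w k) j (fun w'' => M (w k) j * (C w w'' * φ w''))).trans ?_
  apply sum_congr rfl
  intro w' _
  rw [hC, Function.update_self]
  have h3 : C (Function.update w k j) w' = C w w' := by
    have h4 := hC2 w w' j (w' k)
    rwa [Function.update_eq_self] at h4
  by_cases hk : w' k = j
  · rw [if_pos hk, if_pos hk, h3]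
  · rw [if_neg hk, if_neg hk]; ring

theorem TT_upd0 (y : Om → Fin 4 → F) (i : Fin 4) (w w' : ZMod h → Fin 4) (k : ZMod h)
    (hk : k = 0 ∨ k = 1) (a b : Fin 4) :
    TT y i (Function.update w k a) (sg (Function.update w' k b)) = TT y i w (sg w') := by
  apply TT_congr
  · intro j h0 h1
    rw [Function.update_of_ne]
    rintro rfl
    rcases hk with rfl | rfl
    · exact h0 rfl
    · exact h1 rfl
  · intro j h0 h1
    show Fin.rev (Function.update w' k b j) = Fin.rev (w' j)
    rw [Function.update_of_ne]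
    rintro rfl
    rcases hk with rfl | rfl
    · exact h0 rfl
    · exact h1 rfl

theorem Th_t0 (h01 : (0 : ZMod h) ≠ 1) (y : Om → Fin 4 → F) :
    Pool.OVE.Trv (Th (h := h) y) 0 := by
  classical
  intro i M φ
  apply Th_rho y i 0 (fun w w' => if w' 1 = w 1 then TT y (Fin.rev i) w (sg w') else 0)
  · intro w w'
    unfold Mt
    by_cases h0 : w' 0 = w 0
    · by_cases h1 : w' 1 = w 1
      · rw [if_pos ⟨h0, h1⟩, if_pos h0, if_pos h1]
      · rw [if_neg (fun e => h1 e.2), if_pos h0, if_neg h1]
    · rw [if_neg (fun e => h0 e.1), if_neg h0]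
  · intro w w' a b
    simp only [Function.update_of_ne h01.symm, TT_upd0 y (Fin.rev i) w w' 0 (Or.inl rfl) a b]

theorem Th_t1 (h01 : (0 : ZMod h) ≠ 1) (y : Om → Fin 4 → F) :
    Pool.OVE.Trv (Th (h := h) y) 1 := by
  classical
  intro i M φ
  apply Th_rho y i 1 (fun w w' => if w' 0 = w 0 then TT y (Fin.rev i) w (sg w') else 0)
  · intro w w'
    unfold Mt
    by_cases h0 : w' 0 = w 0
    · by_cases h1 : w' 1 = w 1
      · rw [if_pos ⟨h0, h1⟩, if_pos h1, if_pos h0]
      · rw [if_neg (fun e => h1 e.2), if_neg h1]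
    · by_cases h1 : w' 1 = w 1
      · rw [if_neg (fun e => h0 e.1), if_pos h1, if_neg h0]
      · rw [if_neg (fun e => h0 e.1), if_neg h1]
  · intro w w' a b
    simp only [Function.update_of_ne h01, TT_upd0 y (Fin.rev i) w w' 1 (Or.inr rfl) a b]

/-- the value of a coefficient operator -/
theorem ext_apply (k : ZMod h) (p p' : Fin 4) (T : Module.End F (Pool.OVE.E F h))
    (φ : Pool.OVE.E F h) (w : ZMod h → Fin 4) :
    Pool.OVE.ext k p p' T φ w =
      T (Pool.OVE.rho k (Matrix.single p' (w k) 1) φ) (Function.update w k p) := by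
  classical
  unfold Pool.OVE.ext
  rw [LinearMap.sum_apply, Finset.sum_apply, Finset.sum_eq_single (w k)]
  · rw [Module.End.mul_apply, Module.End.mul_apply, Pool.OVE.rho_apply,
      Finset.sum_eq_single p]
    · rw [Matrix.single_apply_same, one_mul]
    · intro j _ hj
      have hz : Matrix.single (w k) p (1 : F) (w k) j = 0 := by
        rw [Matrix.single_apply, if_neg]
        rintro ⟨_, e⟩; exact hj e.symm
      rw [hz, zero_mul]
    · intro hp; exact absurd (mem_univ _) hp
  · intro q _ hq
    rw [Module.End.mul_apply, Module.End.mul_apply, Pool.OVE.rho_apply]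
    apply sum_eq_zero
    intro j _
    have hz : Matrix.single q p (1 : F) (w k) j = 0 := by
      rw [Matrix.single_apply, if_neg]
      rintro ⟨e, _⟩; exact hq e
    rw [hz, zero_mul]
  · intro hp; exact absurd (mem_univ _) hp

theorem ext_Th (y : Om → Fin 4 → F) (i : Fin 4) (k : ZMod h) (p p' : Fin 4)
    (φ : Pool.OVE.E F h) (w : ZMod h → Fin 4) :
    Pool.OVE.ext k p p' (Th y i) φ w = ∑ w' : ZMod h → Fin 4, (if w' k = w k then
      Mt y i (Function.update w k p) (Function.update w' k p') * φ w' else 0) := by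
  classical
  rw [ext_apply, Th_apply]
  simp only [Pool.OVE.rho_apply]
  have e1 : ∀ w' : ZMod h → Fin 4, Mt y i (Function.update w k p) w' *
      (∑ j, (Matrix.single p' (w k) (1 : F)) (w' k) j * φ (Function.update w' k j))
      = if w' k = p' then (fun w'' => Mt y i (Function.update w k p) (Function.update w'' k p')
        * φ w'') (Function.update w' k (w k)) else 0 := by
    intro w'
    by_cases hk : w' k = p'
    · rw [if_pos hk, Finset.sum_eq_single (w k)]
      · rw [hk, Matrix.single_apply_same, one_mul]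
        simp only [Function.update_idem]
        rw [← hk, Function.update_eq_self]
      · intro j _ hj
        have hz : Matrix.single p' (w k) (1 : F) (w' k) j = 0 := by
          rw [Matrix.single_apply, if_neg]
          rintro ⟨_, e⟩; exact hj e.symm
        rw [hz, zero_mul]
      · intro hp; exact absurd (mem_univ _) hp
    · rw [if_neg hk, sum_eq_zero, mul_zero]
      intro j _
      have hz : Matrix.single p' (w k) (1 : F) (w' k) j = 0 := by
        rw [Matrix.single_apply, if_neg]
        rintro ⟨e, _⟩; exact hk e.symm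
      rw [hz, zero_mul]
  rw [sum_congr rfl fun w' _ => e1 w']
  exact sum_upd k p' (w k) (fun w'' => Mt y i (Function.update w k p)
    (Function.update w'' k p') * φ w'')

/-- the shape of a slot matrix -/
theorem shape (A : Fin 4 → Fin 4 → F) (S : Fin 4 → Fin 4 → F)
    (hA : ∀ p q, A p q = S p (Fin.rev q)) (hs : ∀ p q, S p q = S q p) (h0 : ∀ p, S p p = 0)
    (h1 : S 0 3 = S 1 2) (p q : Fin 4) :
    A p q = ∑ b : Fin 5, Pool.OVE.J b p q * A (Pool.OVE.pos b).1 (Pool.OVE.pos b).2 := by
  have r0 : Fin.rev (0 : Fin 4) = 3 := by decide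
  have r1 : Fin.rev (1 : Fin 4) = 2 := by decide
  have r2 : Fin.rev (2 : Fin 4) = 1 := by decide
  have r3 : Fin.rev (3 : Fin 4) = 0 := by decide
  have s10 := hs 1 0
  have s20 := hs 2 0
  have s30 := hs 3 0
  have s21 := hs 2 1
  have s31 := hs 3 1
  have s32 := hs 3 2
  have z0 := h0 0
  have z1 := h0 1
  have z2 := h0 2
  have z3 := h0 3
  rw [Fin.sum_univ_five]
  fin_cases p <;> fin_cases q <;>
    simp [Pool.OVE.J, Pool.OVE.pos, hA, r0, r1, r2, r3, z0, z1, z2, z3, h1, s10, s20, s30,
      s21, s31, s32]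

theorem Th_slot (y : Om → Fin 4 → F) (hy : Ovd F h Om y) (k : ZMod h) (hk0 : k ≠ 0)
    (hk1 : k ≠ 1) (i : Fin 4) :
    Th y i = ∑ b : Fin 5, Pool.OVE.rho k (Pool.OVE.J b) * Pool.OVE.co k b (Th (h := h) y i) := by
  classical
  apply LinearMap.ext
  intro φ
  funext w
  rw [LinearMap.sum_apply, Finset.sum_apply, Th_apply]
  have e1 : ∀ b : Fin 5, ((Pool.OVE.rho k (Pool.OVE.J b) * Pool.OVE.co k b (Th (h := h) y i) :
      Module.End F (Pool.OVE.E F h)) φ) w
      = ∑ w' : ZMod h → Fin 4, Pool.OVE.J b (w k) (w' k) *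
        Mt y i (Function.update w k (Pool.OVE.pos b).1) (Function.update w' k (Pool.OVE.pos b).2)
          * φ w' := by
    intro b
    rw [Module.End.mul_apply, Pool.OVE.rho_apply]
    unfold Pool.OVE.co
    simp only [ext_Th, Function.update_self, Function.update_idem, mul_sum]
    rw [sum_comm]
    apply sum_congr rfl
    intro w' _
    rw [Finset.sum_eq_single (w' k)]
    · rw [if_pos rfl]; ring
    · intro j _ hj
      rw [if_neg (Ne.symm hj), mul_zero]
    · intro hp; exact absurd (mem_univ _) hp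
  rw [sum_congr rfl fun b _ => e1 b, sum_comm]
  apply sum_congr rfl
  intro w' _
  rw [← sum_mul]
  congr 1
  by_cases hc : w' 0 = w 0 ∧ w' 1 = w 1
  · have hM : ∀ p q : Fin 4, Mt y i (Function.update w k p) (Function.update w' k q)
        = TT y (Fin.rev i) (Function.update w k p) (Function.update (sg w') k (Fin.rev q)) := by
      intro p q
      unfold Mt
      rw [if_pos]
      · congr 1
        funext j
        by_cases hj : j = k
        · subst hj; simp [sg]
        · simp [sg, Function.update_of_ne hj]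
      · rw [Function.update_of_ne (Ne.symm hk0), Function.update_of_ne (Ne.symm hk1),
          Function.update_of_ne (Ne.symm hk0), Function.update_of_ne (Ne.symm hk1)]
        exact hc
    have h6 := t_l6 F h Om y hy k hk0 hk1 (Fin.rev i)
    have hself : Mt y i w w' = Mt y i (Function.update w k (w k)) (Function.update w' k (w' k)) := by
      rw [Function.update_eq_self, Function.update_eq_self]
    rw [hself]
    apply shape (fun p q => Mt y i (Function.update w k p) (Function.update w' k q))
      (fun p q => TT y (Fin.rev i) (Function.update w k p) (Function.update (sg w') k q)) hM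
    · intro p q
      show TT y (Fin.rev i) (Function.update w k p) (Function.update (sg w') k q)
        = TT y (Fin.rev i) (Function.update w k q) (Function.update (sg w') k p)
      unfold TT
      apply sum_congr rfl
      intro o _
      have hk : k ∉ ({0, 1} : Finset (ZMod h)) := by simp [hk0, hk1]
      have ew : ∀ (u : ZMod h → Fin 4) (a : Fin 4), wx {0, 1} (Function.update u k a) (y o)
          = fr k (y o a) * wx (insert k {0, 1}) u (y o) := by
        intro u a
        rw [wx_insert hk, Function.update_self, wx_update (mem_insert_self _ _)]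
      rw [ew, ew, ew, ew]
      ring
    · intro p
      exact (h6 (Function.update w k p) (Function.update (sg w') k p)).1 (by
        rw [Function.update_self, Function.update_self])
    · exact (h6 w (sg w')).2
  · have hz : Mt y i w w' = 0 := if_neg hc
    rw [hz]
    symm
    apply sum_eq_zero
    intro b _
    have hz2 : Mt y i (Function.update w k (Pool.OVE.pos b).1)
        (Function.update w' k (Pool.OVE.pos b).2) = 0 := by
      unfold Mt
      rw [if_neg]
      rw [Function.update_of_ne (Ne.symm hk0), Function.update_of_ne (Ne.symm hk1),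
          Function.update_of_ne (Ne.symm hk0), Function.update_of_ne (Ne.symm hk1)]
      exact hc
    rw [hz2, mul_zero]

theorem pl_of (y : Om → Fin 4 → F) (hy : Ovd F h Om y) (φ ψ : Pool.OVE.E F h) :
    ∑ o, Pool.OVE.bf φ (Pool.OVE.hat (y o)) * Pool.OVE.bf ψ (Pool.OVE.hat (y o))
      = Pool.OVE.bf φ ψ := by
  classical
  unfold Pool.OVE.bf
  simp only [wbr_sg, hat_wx, sum_mul_sum]
  rw [sum_comm]
  apply sum_congr rfl
  intro w _
  rw [sum_comm, Finset.sum_eq_single (sg w)]
  · have e1 : ∀ o, φ w * wx ∅ (sg w) (y o) * (ψ (sg w) * wx ∅ (sg (sg w)) (y o))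
        = (φ w * ψ (sg w)) * (wx ∅ (sg w) (y o) * wx ∅ (sg (sg w)) (y o)) := by
      intro o; ring
    rw [sum_congr rfl fun o _ => e1 o, ← mul_sum, fact1 hy, if_pos rfl, mul_one]
  · intro w' _ hw'
    have e1 : ∀ o, φ w * wx ∅ (sg w) (y o) * (ψ w' * wx ∅ (sg w') (y o))
        = (φ w * ψ w') * (wx ∅ (sg w) (y o) * wx ∅ (sg w') (y o)) := by
      intro o; ring
    rw [sum_congr rfl fun o _ => e1 o, ← mul_sum, fact1 hy, if_neg, mul_zero]
    intro e
    exact hw' (sg_inj e)
  · intro hp; exact absurd (mem_univ _) hp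

theorem span_of (y : Om → Fin 4 → F) (hy : Ovd F h Om y) (φ : Pool.OVE.E F h) :
    φ ∈ Submodule.span F (Set.range fun o => (Pool.OVE.hat (y o) : Pool.OVE.E F h)) := by
  classical
  have hs : ∀ w0 : ZMod h → Fin 4, (Pi.single w0 1 : Pool.OVE.E F h) ∈
      Submodule.span F (Set.range fun o => (Pool.OVE.hat (y o) : Pool.OVE.E F h)) := by
    intro w0
    have e : (Pi.single w0 1 : Pool.OVE.E F h) = ∑ o, wx ∅ (sg w0) (y o) •
        (Pool.OVE.hat (y o) : Pool.OVE.E F h) := by
      funext w
      rw [Finset.sum_apply]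
      simp only [Pi.smul_apply, smul_eq_mul, hat_wx]
      rw [fact1 hy, sg_sg, Pi.single_apply]
    rw [e]
    apply Submodule.sum_mem
    intro o _
    apply Submodule.smul_mem
    exact Submodule.subset_span ⟨o, rfl⟩
  have e : φ = ∑ w : ZMod h → Fin 4, φ w • (Pi.single w 1 : Pool.OVE.E F h) := by
    funext w
    rw [Finset.sum_apply, Finset.sum_eq_single w]
    · simp
    · intro b _ hb
      rw [Pi.smul_apply, Pi.single_eq_of_ne (Ne.symm hb), smul_zero]
    · intro hp; exact absurd (mem_univ _) hp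
  rw [e]
  apply Submodule.sum_mem
  intro w _
  exact Submodule.smul_mem _ _ (hs w)

end conv

/-- LAYER 1 -/
theorem t_base : Pool.OVE.BaseStmt := by
  classical
  intro F _ _ _ h _ Om hq h3 hcard hov
  have hy : Ovd F h {v // v ∈ Om} (fun o => o.1) := by
    refine ⟨h3, hq, ?_, ?_⟩
    · rw [Fintype.card_coe]; exact hcard
    · intro a b hab
      rw [← om_eq]
      exact hov a.1 a.2 b.1 b.2 (fun e => hab (Subtype.ext e))
  have h01 := one_ne hy
  refine ⟨Th (h := h) (fun o : {v // v ∈ Om} => o.1), ?_⟩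
  refine
    { hq := hq
      h3 := h3
      card := hcard
      ov := hov
      span := ?_
      pl := ?_
      sa := fun i φ ψ => Th_sa _ i φ ψ
      t0 := Th_t0 h01 _
      t1 := Th_t1 h01 _
      e5 := ?_
      slot := fun k hk0 hk1 i => Th_slot _ hy k hk0 hk1 i }
  · rw [eq_top_iff]
    intro φ _
    have h1 := span_of _ hy φ
    have e : (Pool.OVE.hat '' (Om : Set (Fin 4 → F)) : Set (Pool.OVE.E F h))
        = Set.range fun o : {v // v ∈ Om} => (Pool.OVE.hat o.1 : Pool.OVE.E F h) := by
      ext ψ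
      constructor
      · rintro ⟨v, hv, rfl⟩; exact ⟨⟨v, hv⟩, rfl⟩
      · rintro ⟨o, rfl⟩; exact ⟨o.1, o.2, rfl⟩
    rw [e]; exact h1
  · intro φ ψ
    rw [← pl_of _ hy φ ψ, ← Finset.sum_coe_sort Om]
  · intro v hv
    exact Th_e5 _ hy ⟨v, hv⟩

end Pool.OVL
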