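import Pool.Agent.H74.OVL.Fact1

/-!
Ovoids of `PG(3, 2^h)`, layer 1: statements of L3 (FACT 1'), L5 (FACT 2), L6 (all slots) and of the
conversion to `Pool.OVE.BaseStmt`.
-/

set_option autoImplicit false
set_option linter.unusedSectionVars false

namespace Pool.OVL

open Finset

/-- `T(i; w, w') = S(Q x_0 f_0 i_1 w w')`, the digits 2, .., h-1 of `w` and `w'` -/
noncomputable def TT {F : Type} [Field F] {h : ℕ} [NeZero h] {Om : Type} [Fintype Om]
    (y : Om → Fin 4 → F) (i : Fin 4) (w w' : ZMod h → Fin 4) : F :=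
  ∑ o, Qf (y o) * (y o 0 * y o 3) * fr (1 : ZMod h) (y o i) *
    (wx {0, 1} w (y o) * wx {0, 1} w' (y o))

/-- EP: digit `k` empty, digit `k+1` three letters, the others two letters. -/
def EPStmt : Prop := ∀ (F : Type) [Field F] [Fintype F] [CharP F 2] (h : ℕ) [NeZero h]
  (Om : Type) [Fintype Om] (y : Om → Fin 4 → F), Ovd F h Om y →
  ∀ (k : ZMod h) (a b c : Fin 4) (w w' : ZMod h → Fin 4),
    ∑ o, fr (k + 1) (y o a) * fr (k + 1) (y o b) * fr (k + 1) (y o c) *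
      (wx {k, k + 1} w (y o) * wx {k, k + 1} w' (y o)) = 0

/-- FACT 1': digit 0 three letters, digit 1 empty, the others one letter. -/
def L3Stmt : Prop := ∀ (F : Type) [Field F] [Fintype F] [CharP F 2] (h : ℕ) [NeZero h]
  (Om : Type) [Fintype Om] (y : Om → Fin 4 → F), Ovd F h Om y →
  ∀ (i j : Fin 4) (w : ZMod h → Fin 4), ∑ o, y o i * y o j * wx {1} w (y o) = 0

/-- L4. -/
def L4Stmt : Prop := ∀ (F : Type) [Field F] [Fintype F] [CharP F 2] (h : ℕ) [NeZero h]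
  (Om : Type) [Fintype Om] (y : Om → Fin 4 → F), Ovd F h Om y →
  ∀ (a b i : Fin 4) (w w' : ZMod h → Fin 4),
    ∑ o, Qf (y o) * (y o a * y o b) * fr (1 : ZMod h) (y o i) *
      (wx {0, 1} w (y o) * wx {0, 1} w' (y o)) = Jm F a b * TT y i w w'

open Classical in
/-- L5 = FACT 2. -/
def L5Stmt : Prop := ∀ (F : Type) [Field F] [Fintype F] [CharP F 2] (h : ℕ) [NeZero h]
  (Om : Type) [Fintype Om] (y : Om → Fin 4 → F), Ovd F h Om y →
  ∀ (p : Om) (w : ZMod h → Fin 4), Qf (y p) * wx {0, 1} w (y p) =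
    ∑ i, fr (1 : ZMod h) (y p i) * ∑ w' : ZMod h → Fin 4,
      (if w' 0 = w 0 ∧ w' 1 = w 1 then TT y (Fin.rev i) w (sg w') else 0) * wx {0, 1} w' (y p)

/-- L5 twisted by `2^k`, weak form. -/
def L5kStmt : Prop := ∀ (F : Type) [Field F] [Fintype F] [CharP F 2] (h : ℕ) [NeZero h]
  (Om : Type) [Fintype Om] (y : Om → Fin 4 → F), Ovd F h Om y →
  ∀ (k : ZMod h) (w : ZMod h → Fin 4), ∃ c : Fin 4 → (ZMod h → Fin 4) → F, ∀ p : Om,
    fr k (Qf (y p)) * wx {k, k + 1} w (y p) =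
      ∑ i, ∑ w' : ZMod h → Fin 4, c i w' * (fr (k + 1) (y p i) * wx {k, k + 1} w' (y p))

/-- L6 = all slots. -/
def L6Stmt : Prop := ∀ (F : Type) [Field F] [Fintype F] [CharP F 2] (h : ℕ) [NeZero h]
  (Om : Type) [Fintype Om] (y : Om → Fin 4 → F), Ovd F h Om y →
  ∀ (k : ZMod h), k ≠ 0 → k ≠ 1 → ∀ (i : Fin 4) (w w' : ZMod h → Fin 4),
    (w k = w' k → TT y i w w' = 0) ∧
    TT y i (Function.update w k 0) (Function.update w' k 3) =
      TT y i (Function.update w k 1) (Function.update w' k 2)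

end Pool.OVL
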