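import Mathlib

/-!
Ovoids of `PG(3, 2^h)`, layer 1 in coordinates: letters, words, the kernel identity and FACT 1.
-/

set_option autoImplicit false
set_option linter.unusedSectionVars false

namespace Pool.OVL

open Finset

/-- the symplectic form in coordinates -/
def om {F : Type} [Field F] (u v : Fin 4 → F) : F :=
  u 0 * v 3 + u 3 * v 0 + u 1 * v 2 + u 2 * v 1

/-- the quadratic form -/
def Qf {F : Type} [Field F] (u : Fin 4 → F) : F := u 0 * u 3 + u 1 * u 2

/-- Frobenius number `k` (`k` modulo `h`) -/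
def fr {F : Type} [Field F] {h : ℕ} (k : ZMod h) (c : F) : F := c ^ 2 ^ k.val

/-- the word `w` without the digits of `K`, evaluated at `v` -/
noncomputable def wx {F : Type} [Field F] {h : ℕ} [NeZero h] (K : Finset (ZMod h))
    (w : ZMod h → Fin 4) (v : Fin 4 → F) : F :=
  ∏ j ∈ Kᶜ, fr j (v (w j))

/-- the dual word -/
def sg {h : ℕ} (w : ZMod h → Fin 4) : ZMod h → Fin 4 := fun k => Fin.rev (w k)

/-- the Gram matrix of the letters -/
def Jm (F : Type) [Field F] (i j : Fin 4) : F := if j = Fin.rev i then 1 else 0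

/-- The data: `q² + 1` vectors, pairwise not orthogonal. -/
structure Ovd (F : Type) [Field F] [Fintype F] (h : ℕ) (Om : Type) [Fintype Om]
    (y : Om → Fin 4 → F) : Prop where
  hh : 3 ≤ h
  cq : Fintype.card F = 2 ^ h
  card : Fintype.card Om = Fintype.card F ^ 2 + 1
  off : ∀ a b, a ≠ b → om (y a) (y b) ≠ 0

section basic
variable {F : Type} [Field F] [CharP F 2] {h : ℕ}

theorem fr_zero' (k : ZMod h) : fr k (0 : F) = 0 := by
  unfold fr; exact zero_pow (by positivity)

theorem fr_one' (k : ZMod h) : fr k (1 : F) = 1 := by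
  unfold fr; exact one_pow _

theorem fr_mul (k : ZMod h) (a b : F) : fr k (a * b) = fr k a * fr k b := by
  unfold fr; exact mul_pow _ _ _

theorem fr_add (k : ZMod h) (a b : F) : fr k (a + b) = fr k a + fr k b := by
  unfold fr; exact add_pow_char_pow a b 2 k.val

theorem fr_sum {ι : Type} (s : Finset ι) (k : ZMod h) (f : ι → F) :
    fr k (∑ i ∈ s, f i) = ∑ i ∈ s, fr k (f i) := by
  unfold fr; exact sum_pow_char_pow 2 k.val s f

theorem fr_prod {ι : Type} (s : Finset ι) (k : ZMod h) (f : ι → F) :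
    fr k (∏ i ∈ s, f i) = ∏ i ∈ s, fr k (f i) := by
  unfold fr; exact (Finset.prod_pow _ _ _).symm

theorem add_self' (a : F) : a + a = 0 := CharTwo.add_self_eq_zero a

theorem om_symm (u v : Fin 4 → F) : om u v = om v u := by
  unfold om; ring

theorem om_self (u : Fin 4 → F) : om u u = 0 := by
  unfold om
  have h1 := add_self' (u 0 * u 3)
  have h2 := add_self' (u 1 * u 2)
  linear_combination h1 + h2

theorem om_sum (u v : Fin 4 → F) : om u v = ∑ i, u (Fin.rev i) * v i := by
  unfold om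
  rw [Fin.sum_univ_four]
  have h0 : Fin.rev (0 : Fin 4) = 3 := by decide
  have h1 : Fin.rev (1 : Fin 4) = 2 := by decide
  have h2 : Fin.rev (2 : Fin 4) = 1 := by decide
  have h3 : Fin.rev (3 : Fin 4) = 0 := by decide
  rw [h0, h1, h2, h3]; ring

theorem sg_sg (w : ZMod h → Fin 4) : sg (sg w) = w := by
  funext k; simp [sg]

theorem sg_inj {w w' : ZMod h → Fin 4} (e : sg w = sg w') : w = w' := by
  rw [← sg_sg w, e, sg_sg]

/-- `sg` as an equivalence -/
def sgE (h : ℕ) : (ZMod h → Fin 4) ≃ (ZMod h → Fin 4) where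
  toFun := sg
  invFun := sg
  left_inv := sg_sg
  right_inv := sg_sg

end basic

section digits
variable {F : Type} [Field F] [Fintype F] [CharP F 2] {h : ℕ} [NeZero h]

theorem fr_pow_q (cq : Fintype.card F = 2 ^ h) (c : F) (m : ℕ) : c ^ 2 ^ (m + h) = c ^ 2 ^ m := by
  rw [pow_add, mul_comm, pow_mul, ← cq, FiniteField.pow_card]

theorem fr_mod (cq : Fintype.card F = 2 ^ h) (c : F) (m : ℕ) : c ^ 2 ^ (m % h) = c ^ 2 ^ m := by
  conv_rhs => rw [← Nat.mod_add_div m h]
  generalize m / h = d
  generalize m % h = r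
  induction d with
  | zero => simp
  | succ d ih =>
      rw [Nat.mul_succ, ← add_assoc, fr_pow_q cq, ← ih]

theorem fr_fr (cq : Fintype.card F = 2 ^ h) (k m : ZMod h) (c : F) :
    fr k (fr m c) = fr (k + m) c := by
  unfold fr
  rw [ZMod.val_add, fr_mod cq, ← pow_mul, ← pow_add, add_comm]

theorem fr_zero_idx (c : F) : fr (0 : ZMod h) c = c := by
  unfold fr; simp

theorem fr_succ (cq : Fintype.card F = 2 ^ h) (hh : 2 ≤ h) (k : ZMod h) (c : F) :
    fr k c * fr k c = fr (k + 1) c := by
  have : Fact (1 < h) := ⟨by omega⟩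
  rw [add_comm, ← fr_fr cq]
  have : ∀ x : F, fr (1 : ZMod h) x = x * x := by
    intro x
    unfold fr
    rw [ZMod.val_one]; ring
  rw [this]

theorem fr_one_idx (hh : 2 ≤ h) (c : F) : fr (1 : ZMod h) c = c * c := by
  have : Fact (1 < h) := ⟨by omega⟩
  unfold fr
  rw [ZMod.val_one]; ring

theorem prod_val {M : Type} [CommMonoid M] (g : ℕ → M) :
    ∏ k : ZMod h, g k.val = ∏ i ∈ range h, g i := by
  obtain ⟨n, rfl⟩ : ∃ n, h = n + 1 := ⟨h - 1, by have := NeZero.pos h; omega⟩
  exact Fin.prod_univ_eq_prod_range g (n + 1)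

theorem prod_fr (c : F) : ∏ k : ZMod h, fr k c = c ^ (2 ^ h - 1) := by
  have h1 : ∏ k : ZMod h, fr k c = ∏ i ∈ range h, c ^ 2 ^ i :=
    prod_val (fun i => c ^ 2 ^ i)
  rw [h1, Finset.prod_pow_eq_pow_sum]
  congr 1
  clear h1
  induction h with
  | zero => simp
  | succ n ih =>
      rcases Nat.eq_zero_or_pos n with rfl | hn
      · simp
      · have : NeZero n := ⟨by omega⟩
        rw [Finset.sum_range_succ, ih, pow_succ]
        have := Nat.one_le_two_pow (n := n)
        omega

theorem wx_insert {K : Finset (ZMod h)} {k : ZMod h} (hk : k ∉ K) (w : ZMod h → Fin 4)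
    (v : Fin 4 → F) : wx K w v = fr k (v (w k)) * wx (insert k K) w v := by
  unfold wx
  have e : Kᶜ = insert k (insert k K)ᶜ := by
    ext j
    simp only [mem_compl, mem_insert, not_or]
    by_cases hj : j = k
    · subst hj; simp [hk]
    · simp [hj]
  rw [e, prod_insert (by simp)]

theorem wx_congr {K : Finset (ZMod h)} {w w' : ZMod h → Fin 4} (e : ∀ j, j ∉ K → w j = w' j)
    (v : Fin 4 → F) : wx K w v = wx K w' v := by
  unfold wx
  apply prod_congr rfl
  intro j hj
  rw [mem_compl] at hj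
  rw [e j hj]

theorem wx_update {K : Finset (ZMod h)} {k : ZMod h} (hk : k ∈ K) (w : ZMod h → Fin 4)
    (i : Fin 4) (v : Fin 4 → F) : wx K (Function.update w k i) v = wx K w v := by
  apply wx_congr
  intro j hj
  rw [Function.update_of_ne]
  rintro rfl; exact hj hk

/-- product of sums over words -/
theorem prod_sum_words (f : ZMod h → Fin 4 → F) :
    ∏ k, ∑ i, f k i = ∑ w : ZMod h → Fin 4, ∏ k, f k (w k) := by
  rw [Finset.prod_univ_sum]
  simp only [Fintype.piFinset_univ]

/-- the full kernel identity -/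
theorem kernel (u v : Fin 4 → F) :
    om u v ^ (2 ^ h - 1) = ∑ w : ZMod h → Fin 4, wx ∅ (sg w) u * wx ∅ w v := by
  rw [← prod_fr, om_sum]
  have h1 : ∀ k : ZMod h, fr k (∑ i, u (Fin.rev i) * v i)
      = ∑ i, fr k (u (Fin.rev i)) * fr k (v i) := by
    intro k
    rw [fr_sum]
    exact sum_congr rfl fun i _ => fr_mul _ _ _
  rw [prod_congr rfl fun k _ => h1 k, prod_sum_words]
  apply sum_congr rfl
  intro w _
  rw [prod_mul_distrib]
  simp [wx, sg]

end digits

end Pool.OVL
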