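import Pool.Agent.H74.OVL.Base

/-!
Ovoids of `PG(3, 2^h)`: FACT 1, the words form a basis of the functions with sum zero and the
sum of a product of two words is the symplectic Gram entry.
-/

set_option autoImplicit false
set_option linter.unusedSectionVars false

namespace Pool.OVL

open Finset

section F1
variable {F : Type} [Field F] [Fintype F] [CharP F 2] {h : ℕ} [NeZero h]
  {Om : Type} [Fintype Om] {y : Om → Fin 4 → F}

theorem q_zero (_ : Ovd F h Om y) : ((Fintype.card F : ℕ) : F) = 0 := FiniteField.cast_card_eq_zero F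

theorem card_one (hy : Ovd F h Om y) : ((Fintype.card Om : ℕ) : F) = 1 := by
  rw [hy.card]; push_cast; rw [q_zero hy]; ring

open Classical in
theorem kernel_val (hy : Ovd F h Om y) (a b : Om) :
    ∑ w : ZMod h → Fin 4, wx ∅ (sg w) (y a) * wx ∅ w (y b) = if a = b then 0 else 1 := by
  rw [← kernel]
  have h0 : 2 ^ h - 1 ≠ 0 := by
    have := Nat.one_lt_two_pow (n := h) (NeZero.ne h)
    omega
  by_cases hab : a = b
  · subst hab; rw [om_self, zero_pow h0, if_pos rfl]
  · rw [if_neg hab, ← hy.cq]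
    exact FiniteField.pow_card_sub_one_eq_one _ (hy.off a b hab)

/-- the matrix `N`, as a linear map -/
noncomputable def Nl (y : Om → Fin 4 → F) : ((ZMod h → Fin 4) → F) →ₗ[F] (Om → F) where
  toFun φ := fun a => ∑ w, φ w * wx ∅ (sg w) (y a)
  map_add' φ ψ := by
    funext a; simp [add_mul, sum_add_distrib]
  map_smul' c φ := by
    funext a; simp [mul_sum, mul_assoc]

/-- the matrix `M`, as a linear map -/
noncomputable def Ml (y : Om → Fin 4 → F) : (Om → F) →ₗ[F] ((ZMod h → Fin 4) → F) where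
  toFun g := fun w => ∑ a, g a * wx ∅ w (y a)
  map_add' φ ψ := by
    funext a; simp [add_mul, sum_add_distrib]
  map_smul' c φ := by
    funext a; simp [mul_sum, mul_assoc]

theorem Nl_Ml (hy : Ovd F h Om y) (g : Om → F) (a : Om) :
    Nl (h := h) y (Ml y g) a = (∑ b, g b) + g a := by
  classical
  simp only [Nl, Ml, LinearMap.coe_mk, AddHom.coe_mk]
  have h1 : ∀ w : ZMod h → Fin 4, (∑ b, g b * wx ∅ w (y b)) * wx ∅ (sg w) (y a)
      = ∑ b, g b * (wx ∅ (sg w) (y a) * wx ∅ w (y b)) := by
    intro w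
    rw [sum_mul]
    exact sum_congr rfl fun b _ => by ring
  rw [sum_congr rfl fun w _ => h1 w, sum_comm]
  have h2 : ∀ b : Om, ∑ w : ZMod h → Fin 4, g b * (wx ∅ (sg w) (y a) * wx ∅ w (y b))
      = g b + (if a = b then g b else 0) := by
    intro b
    rw [← mul_sum, kernel_val hy]
    by_cases hab : a = b
    · rw [if_pos hab, if_pos hab, mul_zero, add_self']
    · rw [if_neg hab, if_neg hab, mul_one, add_zero]
  rw [sum_congr rfl fun b _ => h2 b, sum_add_distrib, Finset.sum_ite_eq]
  simp

theorem card_words : Fintype.card (ZMod h → Fin 4) = (2 ^ h) ^ 2 := by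
  rw [Fintype.card_fun, ZMod.card, Fintype.card_fin, show (4 : ℕ) = 2 ^ 2 from rfl, ← pow_mul,
    ← pow_mul, mul_comm]

theorem Nl_inj (hy : Ovd F h Om y) : Function.Injective (Nl (h := h) y) := by
  classical
  set L : (Om → F) →ₗ[F] (Om → F) := (Nl (h := h) y).comp (Ml y) with hL
  have hker : LinearMap.ker L ≤ Submodule.span F {(fun _ => 1 : Om → F)} := by
    intro g hg
    rw [LinearMap.mem_ker] at hg
    have h1 : ∀ a, (∑ b, g b) + g a = 0 := by
      intro a
      rw [← Nl_Ml hy g a]
      exact congrFun hg a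
    rw [Submodule.mem_span_singleton]
    refine ⟨∑ b, g b, ?_⟩
    funext a
    have := h1 a
    simp only [Pi.smul_apply, smul_eq_mul, mul_one]
    have h2 := add_self' (g a)
    linear_combination this - h2
  have hk1 : Module.finrank F (LinearMap.ker L) ≤ 1 :=
    (Submodule.finrank_mono hker).trans
      ((finrank_span_le_card _).trans (by simp))
  have hrn := L.finrank_range_add_finrank_ker
  rw [Module.finrank_fintype_fun_eq_card, hy.card] at hrn
  have hr : LinearMap.range L ≤ LinearMap.range (Nl (h := h) y) := LinearMap.range_comp_le_range _ _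
  have hr2 := Submodule.finrank_mono hr
  have hN := (Nl (h := h) y).finrank_range_add_finrank_ker
  rw [Module.finrank_fintype_fun_eq_card, card_words, ← hy.cq] at hN
  have hz : Module.finrank F (LinearMap.ker (Nl (h := h) y)) = 0 := by omega
  rw [← LinearMap.ker_eq_bot]
  exact Submodule.finrank_eq_zero.mp hz

/-- one-letter sums vanish -/
theorem one_letter (hy : Ovd F h Om y) (w : ZMod h → Fin 4) : ∑ a, wx ∅ w (y a) = 0 := by
  have h1 : Nl (h := h) y (Ml y (fun _ => 1)) = 0 := by
    funext a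
    rw [Nl_Ml hy]
    simp only [sum_const, card_univ, nsmul_eq_mul, Pi.zero_apply, mul_one]
    rw [card_one hy, add_self']
  have h2 : Ml (h := h) y (fun _ => 1) = 0 := Nl_inj hy (by rw [h1, map_zero])
  have h3 := congrFun h2 w
  simpa [Ml] using h3

/-- FACT 1 -/
theorem fact1 (hy : Ovd F h Om y) (w w' : ZMod h → Fin 4) :
    ∑ a, wx ∅ w (y a) * wx ∅ w' (y a) = if w' = sg w then 1 else 0 := by
  classical
  -- `M N = 1`
  have key : Ml (h := h) y (fun a => wx ∅ w (y a)) = Pi.single (sg w) 1 := by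
    apply Nl_inj hy
    funext a
    rw [Nl_Ml hy, one_letter hy, zero_add]
    simp only [Nl, LinearMap.coe_mk, AddHom.coe_mk]
    rw [Finset.sum_eq_single (sg w)]
    · simp [sg_sg]
    · intro b _ hb; simp [Pi.single_eq_of_ne hb]
    · intro hb; exact absurd (mem_univ _) hb
  have h3 := congrFun key w'
  simp only [Ml, LinearMap.coe_mk, AddHom.coe_mk] at h3
  rw [h3, Pi.single_apply]

/-- FACT 1 as a product -/
theorem fact1_prod (hy : Ovd F h Om y) (w w' : ZMod h → Fin 4) :
    ∑ a, wx ∅ w (y a) * wx ∅ w' (y a) = ∏ k, Jm F (w k) (w' k) := by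
  rw [fact1 hy]
  by_cases e : w' = sg w
  · rw [if_pos e, e]
    symm
    apply prod_eq_one
    intro k _
    simp [Jm, sg]
  · rw [if_neg e]
    obtain ⟨k, hk⟩ : ∃ k, w' k ≠ sg w k := by
      by_contra hcon
      push Not at hcon
      exact e (funext hcon)
    symm
    apply prod_eq_zero (mem_univ k)
    unfold Jm
    exact if_neg hk

/-- the sum against the kernel function is the evaluation -/
theorem eval_word (hy : Ovd F h Om y) (w : ZMod h → Fin 4) (z : Fin 4 → F) :
    ∑ a, wx ∅ w (y a) * om z (y a) ^ (2 ^ h - 1) = wx ∅ w z := by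
  classical
  have h1 : ∀ a, wx ∅ w (y a) * om z (y a) ^ (2 ^ h - 1)
      = ∑ w' : ZMod h → Fin 4, wx ∅ (sg w') z * (wx ∅ w (y a) * wx ∅ w' (y a)) := by
    intro a
    rw [kernel, mul_sum]
    exact sum_congr rfl fun w' _ => by ring
  rw [sum_congr rfl fun a _ => h1 a, sum_comm]
  have h2 : ∀ w' : ZMod h → Fin 4,
      ∑ a, wx ∅ (sg w') z * (wx ∅ w (y a) * wx ∅ w' (y a))
        = if w' = sg w then wx ∅ (sg w') z else 0 := by
    intro w'
    rw [← mul_sum, fact1 hy]
    split_ifs <;> simp
  rw [sum_congr rfl fun w' _ => h2 w', Finset.sum_ite_eq']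
  simp [sg_sg]

/-- the same for products of linear forms -/
theorem eval_lin (hy : Ovd F h Om y) (L : ZMod h → Fin 4 → F) (z : Fin 4 → F) :
    ∑ a, (∏ k : ZMod h, fr k (∑ i, L k i * y a i)) * om z (y a) ^ (2 ^ h - 1)
      = ∏ k : ZMod h, fr k (∑ i, L k i * z i) := by
  classical
  have h1 : ∀ v : Fin 4 → F, (∏ k : ZMod h, fr k (∑ i, L k i * v i))
      = ∑ w : ZMod h → Fin 4, (∏ k, fr k (L k (w k))) * wx ∅ w v := by
    intro v
    have h2 : ∀ k : ZMod h, fr k (∑ i, L k i * v i) = ∑ i, fr k (L k i) * fr k (v i) := by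
      intro k
      rw [fr_sum]
      exact sum_congr rfl fun i _ => fr_mul _ _ _
    rw [prod_congr rfl fun k _ => h2 k, prod_sum_words]
    apply sum_congr rfl
    intro w _
    rw [prod_mul_distrib]
    simp [wx]
  have h3 : ∀ a, (∏ k : ZMod h, fr k (∑ i, L k i * y a i)) * om z (y a) ^ (2 ^ h - 1)
      = ∑ w : ZMod h → Fin 4, (∏ k, fr k (L k (w k))) *
          (wx ∅ w (y a) * om z (y a) ^ (2 ^ h - 1)) := by
    intro a
    rw [h1, sum_mul]
    exact sum_congr rfl fun w' _ => by ring
  rw [sum_congr rfl fun a _ => h3 a, sum_comm, h1]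
  apply sum_congr rfl
  intro w _
  rw [← mul_sum, eval_word hy]

/-- one-letter sums of products of linear forms -/
theorem one_lin (hy : Ovd F h Om y) (L : ZMod h → Fin 4 → F) :
    ∑ a, (∏ k : ZMod h, fr k (∑ i, L k i * y a i)) = 0 := by
  classical
  have h1 : ∀ v : Fin 4 → F, (∏ k : ZMod h, fr k (∑ i, L k i * v i))
      = ∑ w : ZMod h → Fin 4, (∏ k, fr k (L k (w k))) * wx ∅ w v := by
    intro v
    have h2 : ∀ k : ZMod h, fr k (∑ i, L k i * v i) = ∑ i, fr k (L k i) * fr k (v i) := by
      intro k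
      rw [fr_sum]
      exact sum_congr rfl fun i _ => fr_mul _ _ _
    rw [prod_congr rfl fun k _ => h2 k, prod_sum_words]
    apply sum_congr rfl
    intro w _
    rw [prod_mul_distrib]
    simp [wx]
  rw [sum_congr rfl fun a _ => h1 (y a), sum_comm]
  apply sum_eq_zero
  intro w _
  rw [← mul_sum, one_letter hy, mul_zero]

end F1

end Pool.OVL
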