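import Pool.Agent.H74.OVL.St

/-!
Ovoids of `PG(3, 2^h)`, layer 1: EP and L4.
-/

set_option autoImplicit false
set_option linter.unusedSectionVars false

namespace Pool.OVL

open Finset

section L4
variable {F : Type} [Field F] [Fintype F] [CharP F 2] {h : ℕ} [NeZero h]
  {Om : Type} [Fintype Om] {y : Om → Fin 4 → F}

theorem wx_two {k m : ZMod h} (hkm : k ≠ m) (w : ZMod h → Fin 4) (a c : Fin 4)
    (v : Fin 4 → F) :
    wx ∅ (Function.update (Function.update w k a) m c) v
      = fr k (v a) * (fr m (v c) * wx {k, m} w v) := by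
  classical
  rw [wx_insert (notMem_empty k), Function.update_of_ne hkm, Function.update_self,
    wx_insert (k := m) (by simp [hkm.symm]), Function.update_self]
  congr 2
  rw [wx_update (by simp)]
  have e : (insert m (insert k (∅ : Finset (ZMod h)))) = {k, m} := by
    ext j; simp; tauto
  rw [e, wx_update (by simp)]

theorem fact1_two (hy : Ovd F h Om y) {k m : ZMod h} (hkm : k ≠ m) (a b c d : Fin 4)
    (w w' : ZMod h → Fin 4) :
    ∑ o, (fr k (y o a) * fr k (y o b)) * (fr m (y o c) * fr m (y o d)) *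
      (wx {k, m} w (y o) * wx {k, m} w' (y o))
      = Jm F a b * Jm F c d * ∏ j ∈ ({k, m} : Finset (ZMod h))ᶜ, Jm F (w j) (w' j) := by
  classical
  have h1 := fact1_prod hy (Function.update (Function.update w k a) m c)
    (Function.update (Function.update w' k b) m d)
  have h2 : ∀ o, wx ∅ (Function.update (Function.update w k a) m c) (y o) *
      wx ∅ (Function.update (Function.update w' k b) m d) (y o)
      = (fr k (y o a) * fr k (y o b)) * (fr m (y o c) * fr m (y o d)) *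
      (wx {k, m} w (y o) * wx {k, m} w' (y o)) := by
    intro o
    rw [wx_two hkm, wx_two hkm]; ring
  rw [sum_congr rfl fun o _ => h2 o] at h1
  rw [h1, ← prod_mul_prod_compl ({k, m} : Finset (ZMod h)), prod_pair hkm]
  congr 1
  · rw [Function.update_of_ne hkm, Function.update_self, Function.update_of_ne hkm,
      Function.update_self, Function.update_self, Function.update_self]
  · apply prod_congr rfl
    intro j hj
    simp only [mem_compl, mem_insert, mem_singleton, not_or] at hj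
    rw [Function.update_of_ne hj.2, Function.update_of_ne hj.1, Function.update_of_ne hj.2,
      Function.update_of_ne hj.1]

theorem Jm_self (a : Fin 4) : Jm F a a = 0 := by
  unfold Jm
  rw [if_neg]
  revert a; decide

theorem h2le (hy : Ovd F h Om y) : 2 ≤ h := le_trans (by norm_num) hy.hh

theorem one_ne (hy : Ovd F h Om y) : (0 : ZMod h) ≠ 1 := by
  have : Fact (1 < h) := ⟨h2le hy⟩
  exact zero_ne_one

theorem ne_succ (hy : Ovd F h Om y) (k : ZMod h) : k ≠ k + 1 := by
  intro e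
  apply one_ne hy
  have := congrArg (fun x => x - k) e
  simpa using this

theorem t_ep : EPStmt := by
  intro F _ _ _ h _ Om _ y hy k a b c w w'
  have h1 := fact1_two hy (ne_succ hy k) a a b c w w'
  rw [Jm_self, zero_mul, zero_mul] at h1
  rw [← h1]
  apply sum_congr rfl
  intro o _
  rw [← fr_succ hy.cq (h2le hy) k (y o a)]
  ring

/-- FACT 1 at the digits 0, 1 -/
theorem f01 (hy : Ovd F h Om y) (a b c d : Fin 4) (w w' : ZMod h → Fin 4) :
    ∑ o, (y o a * y o b) * (fr (1 : ZMod h) (y o c) * fr (1 : ZMod h) (y o d)) *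
      (wx {0, 1} w (y o) * wx {0, 1} w' (y o))
      = Jm F a b * Jm F c d * ∏ j ∈ ({0, 1} : Finset (ZMod h))ᶜ, Jm F (w j) (w' j) := by
  rw [← fact1_two hy (one_ne hy) a b c d w w']
  apply sum_congr rfl
  intro o _
  rw [fr_zero_idx, fr_zero_idx]

theorem l4_aux (hy : Ovd F h Om y) (a b i p q r p' q' r' : Fin 4) (w w' : ZMod h → Fin 4)
    (e : ∀ v : Fin 4 → F, Qf v * (v a * v b) = (v p * v q) * (v r * v r) +
      (v p' * v q') * (v r' * v r')) :
    ∑ o, Qf (y o) * (y o a * y o b) * fr (1 : ZMod h) (y o i) *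
      (wx {0, 1} w (y o) * wx {0, 1} w' (y o)) =
    (Jm F p q * Jm F r i + Jm F p' q' * Jm F r' i) *
      ∏ j ∈ ({0, 1} : Finset (ZMod h))ᶜ, Jm F (w j) (w' j) := by
  rw [add_mul, ← f01 hy p q r i w w', ← f01 hy p' q' r' i w w', ← sum_add_distrib]
  apply sum_congr rfl
  intro o _
  rw [e, fr_one_idx (h2le hy) (y o r), fr_one_idx (h2le hy) (y o r')]
  ring

theorem l4_pair (hy : Ovd F h Om y) (i : Fin 4) (w w' : ZMod h → Fin 4) :
    ∑ o, Qf (y o) * (y o 1 * y o 2) * fr (1 : ZMod h) (y o i) *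
      (wx {0, 1} w (y o) * wx {0, 1} w' (y o)) = TT y i w w' := by
  have hsum : ∑ o, Qf (y o) * (y o 1 * y o 2) * fr (1 : ZMod h) (y o i) *
      (wx {0, 1} w (y o) * wx {0, 1} w' (y o)) + TT y i w w' = 0 := by
    unfold TT
    rw [← sum_add_distrib]
    have e1 := f01 hy 0 0 3 i w w'
    have e2 := f01 hy 1 1 2 i w w'
    rw [Jm_self, zero_mul, zero_mul] at e1 e2
    have e3 := congrArg₂ (· + ·) e1 e2
    simp only [add_zero] at e3
    rw [← sum_add_distrib] at e3
    rw [← e3]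
    apply sum_congr rfl
    intro o _
    rw [fr_one_idx (h2le hy) (y o 2), fr_one_idx (h2le hy) (y o 3)]
    have h3 := add_self' (y o 0 * y o 1 * y o 2 * y o 3 * fr (1 : ZMod h) (y o i) *
      (wx {0, 1} w (y o) * wx {0, 1} w' (y o)))
    unfold Qf
    linear_combination h3
  have h4 := add_self' (TT y i w w')
  linear_combination hsum - h4

theorem t_l4 : L4Stmt := by
  intro F _ _ _ h _ Om _ y hy a b i w w'
  have e00 : Jm F 0 0 = 0 := Jm_self 0
  have hJ : ∀ p q : Fin 4, q ≠ Fin.rev p → Jm F p q = 0 := fun p q e => if_neg e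
  have hJ1 : ∀ p q : Fin 4, q = Fin.rev p → Jm F p q = 1 := fun p q e => if_pos e
  have two : (1 : F) + 1 = 0 := add_self' 1
  fin_cases a <;> fin_cases b <;>
    simp only [Fin.zero_eta, Fin.mk_one, Fin.reduceFinMk, Fin.isValue]
  · rw [l4_aux hy 0 0 i 0 3 0 1 2 0 w w' (by intro v; unfold Qf; ring),
      hJ1 0 3 (by decide), hJ1 1 2 (by decide), hJ 0 0 (by decide)]
    linear_combination (Jm F 0 i * ∏ j ∈ ({0, 1} : Finset (ZMod h))ᶜ, Jm F (w j) (w' j)) * two
  · rw [l4_aux hy 0 1 i 1 3 0 0 2 1 w w' (by intro v; unfold Qf; ring),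
      hJ 1 3 (by decide), hJ 0 2 (by decide), hJ 0 1 (by decide)]; ring
  · rw [l4_aux hy 0 2 i 2 3 0 0 1 2 w w' (by intro v; unfold Qf; ring),
      hJ 2 3 (by decide), hJ 0 1 (by decide), hJ 0 2 (by decide)]; ring
  · rw [hJ1 0 3 (by decide), one_mul]; rfl
  · rw [l4_aux hy 1 0 i 1 3 0 0 2 1 w w' (by intro v; unfold Qf; ring),
      hJ 1 3 (by decide), hJ 0 2 (by decide), hJ 1 0 (by decide)]; ring
  · rw [l4_aux hy 1 1 i 0 3 1 1 2 1 w w' (by intro v; unfold Qf; ring),
      hJ1 0 3 (by decide), hJ1 1 2 (by decide), hJ 1 1 (by decide)]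
    linear_combination (Jm F 1 i * ∏ j ∈ ({0, 1} : Finset (ZMod h))ᶜ, Jm F (w j) (w' j)) * two
  · rw [hJ1 1 2 (by decide), one_mul]; exact l4_pair hy i w w'
  · rw [l4_aux hy 1 3 i 0 1 3 2 3 1 w w' (by intro v; unfold Qf; ring),
      hJ 0 1 (by decide), hJ 2 3 (by decide), hJ 1 3 (by decide)]; ring
  · rw [l4_aux hy 2 0 i 2 3 0 0 1 2 w w' (by intro v; unfold Qf; ring),
      hJ 2 3 (by decide), hJ 0 1 (by decide), hJ 2 0 (by decide)]; ring
  · rw [hJ1 2 1 (by decide), one_mul, ← l4_pair hy i w w']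
    apply sum_congr rfl
    intro o _
    rw [mul_comm (y o 2) (y o 1)]
  · rw [l4_aux hy 2 2 i 0 3 2 1 2 2 w w' (by intro v; unfold Qf; ring),
      hJ1 0 3 (by decide), hJ1 1 2 (by decide), hJ 2 2 (by decide)]
    linear_combination (Jm F 2 i * ∏ j ∈ ({0, 1} : Finset (ZMod h))ᶜ, Jm F (w j) (w' j)) * two
  · rw [l4_aux hy 2 3 i 0 2 3 1 3 2 w w' (by intro v; unfold Qf; ring),
      hJ 0 2 (by decide), hJ 1 3 (by decide), hJ 2 3 (by decide)]; ring
  · rw [hJ1 3 0 (by decide), one_mul]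
    unfold TT
    apply sum_congr rfl
    intro o _
    rw [mul_comm (y o 3) (y o 0)]
  · rw [l4_aux hy 3 1 i 0 1 3 2 3 1 w w' (by intro v; unfold Qf; ring),
      hJ 0 1 (by decide), hJ 2 3 (by decide), hJ 3 1 (by decide)]; ring
  · rw [l4_aux hy 3 2 i 0 2 3 1 3 2 w w' (by intro v; unfold Qf; ring),
      hJ 0 2 (by decide), hJ 1 3 (by decide), hJ 3 2 (by decide)]; ring
  · rw [l4_aux hy 3 3 i 0 3 3 1 2 3 w w' (by intro v; unfold Qf; ring),
      hJ1 0 3 (by decide), hJ1 1 2 (by decide), hJ 3 3 (by decide)]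
    linear_combination (Jm F 3 i * ∏ j ∈ ({0, 1} : Finset (ZMod h))ᶜ, Jm F (w j) (w' j)) * two

end L4

end Pool.OVL
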