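import Pool.Agent.H74.OVL.L4

/-!
Ovoids of `PG(3, 2^h)`, layer 1: L5 = FACT 2, and its twists.
-/

set_option autoImplicit false
set_option linter.unusedSectionVars false

namespace Pool.OVL

open Finset

section L5
variable {F : Type} [Field F] [Fintype F] [CharP F 2] {h : ℕ} [NeZero h]
  {Om : Type} [Fintype Om] {y : Om → Fin 4 → F}

theorem wx_zero_two (hy : Ovd F h Om y) (w : ZMod h → Fin 4) (v : Fin 4 → F) :
    wx ∅ w v = v (w 0) * (fr (1 : ZMod h) (v (w 1)) * wx {0, 1} w v) := by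
  have e := wx_two (F := F) (one_ne hy) w (w 0) (w 1) v
  rw [fr_zero_idx, Function.update_eq_self] at e
  rw [← e, Function.update_eq_self]

/-- `om^(q-1)` with the digits `0` and `1` separated -/
theorem kernel01 (hy : Ovd F h Om y) (u v : Fin 4 → F) (r s : Fin 4) :
    om u v ^ (2 ^ h - 1) = (∑ b, u (Fin.rev b) * v b) *
      (∑ i, fr (1 : ZMod h) (u (Fin.rev i)) * fr (1 : ZMod h) (v i)) *
      ∑ w : ZMod h → Fin 4, (if w 0 = r ∧ w 1 = s then wx {0, 1} (sg w) u else 0) *
        wx {0, 1} w v := by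
  classical
  rw [← prod_fr, ← prod_mul_prod_compl ({0, 1} : Finset (ZMod h)), prod_pair (one_ne hy),
    fr_zero_idx]
  have h1 : ∀ k : ZMod h, fr k (om u v) = ∑ i, fr k (u (Fin.rev i)) * fr k (v i) := by
    intro k
    rw [om_sum, fr_sum]
    exact sum_congr rfl fun i _ => fr_mul _ _ _
  rw [h1 1]
  refine congrArg₂ (· * ·) (congrArg₂ (· * ·) (om_sum u v) rfl) ?_
  -- the product over the other digits
  have h2 : ∏ k ∈ ({0, 1} : Finset (ZMod h))ᶜ, fr k (om u v)
      = ∏ k : ZMod h, ∑ i, (if k = 0 then (if i = r then 1 else 0) else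
          if k = 1 then (if i = s then 1 else 0) else fr k (u (Fin.rev i)) * fr k (v i)) := by
    rw [← prod_mul_prod_compl ({0, 1} : Finset (ZMod h)) (fun k => ∑ i, (if k = 0 then
      (if i = r then (1 : F) else 0) else
          if k = 1 then (if i = s then 1 else 0) else fr k (u (Fin.rev i)) * fr k (v i))),
      prod_pair (one_ne hy)]
    have e0 : (∑ i : Fin 4, (if (0 : ZMod h) = 0 then (if i = r then (1 : F) else 0) else
          if (0 : ZMod h) = 1 then (if i = s then 1 else 0) else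
            fr (0 : ZMod h) (u (Fin.rev i)) * fr (0 : ZMod h) (v i))) = 1 := by
      simp
    have e1 : (∑ i : Fin 4, (if (1 : ZMod h) = 0 then (if i = r then (1 : F) else 0) else
          if (1 : ZMod h) = 1 then (if i = s then 1 else 0) else
            fr (1 : ZMod h) (u (Fin.rev i)) * fr (1 : ZMod h) (v i))) = 1 := by
      simp [(one_ne hy).symm]
    rw [e0, e1, one_mul, one_mul]
    apply prod_congr rfl
    intro k hk
    simp only [mem_compl, mem_insert, mem_singleton, not_or] at hk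
    rw [h1 k]
    apply sum_congr rfl
    intro i _
    rw [if_neg hk.1, if_neg hk.2]
  rw [h2, prod_sum_words]
  apply sum_congr rfl
  intro w _
  rw [← prod_mul_prod_compl ({0, 1} : Finset (ZMod h)), prod_pair (one_ne hy), if_pos rfl,
    if_neg (one_ne hy).symm, if_pos rfl]
  have h3 : ∏ k ∈ ({0, 1} : Finset (ZMod h))ᶜ, (if k = 0 then (if w k = r then (1 : F) else 0) else
          if k = 1 then (if w k = s then 1 else 0) else
            fr k (u (Fin.rev (w k))) * fr k (v (w k)))
      = wx {0, 1} (sg w) u * wx {0, 1} w v := by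
    unfold wx
    rw [← prod_mul_distrib]
    apply prod_congr rfl
    intro k hk
    simp only [mem_compl, mem_insert, mem_singleton, not_or] at hk
    rw [if_neg hk.1, if_neg hk.2]
    rfl
  rw [h3]
  by_cases hr : w 0 = r
  · by_cases hs : w 1 = s
    · rw [if_pos hr, if_pos hs, if_pos ⟨hr, hs⟩]; ring
    · have hn : ¬ (w 0 = r ∧ w 1 = s) := fun e => hs e.2
      rw [if_neg hs, if_neg hn]; ring
  · have hn : ¬ (w 0 = r ∧ w 1 = s) := fun e => hr e.1
    rw [if_neg hr, if_neg hn]; ring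

/-- `S(Q ξ a_0) = 0` -/
theorem q_three (l3 : L3Stmt) (hy : Ovd F h Om y) (j : Fin 4) (w : ZMod h → Fin 4) :
    ∑ o, y o j * (Qf (y o) * wx {0, 1} w (y o)) = 0 := by
  have e1 := l3 F h Om y hy j 0 (Function.update w 0 3)
  have e2 := l3 F h Om y hy j 1 (Function.update w 0 2)
  have e3 := congrArg₂ (· + ·) e1 e2
  simp only [add_zero] at e3
  rw [← sum_add_distrib] at e3
  rw [← e3]
  apply sum_congr rfl
  intro o _
  have hs : ∀ a : Fin 4, wx {1} (Function.update w 0 a) (y o) = y o a * wx {0, 1} w (y o) := by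
    intro a
    rw [wx_insert (k := 0) (by simp [one_ne hy]), Function.update_self, fr_zero_idx,
      wx_update (by simp)]
  rw [hs, hs]
  unfold Qf
  ring

theorem y_ne (hy : Ovd F h Om y) (p : Om) : ∃ j, y p j ≠ 0 := by
  by_contra hcon
  push Not at hcon
  have h2 : 1 < Fintype.card Om := by
    rw [hy.card]
    have := Fintype.card_pos (α := F)
    nlinarith
  obtain ⟨b, hb⟩ := Fintype.exists_ne_of_one_lt_card h2 p
  apply hy.off p b hb.symm
  unfold om
  rw [hcon 0, hcon 1, hcon 2, hcon 3]; ring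

theorem t_l5 (l3 : L3Stmt) : L5Stmt := by
  classical
  intro F _ _ _ h _ Om _ y hy p w
  obtain ⟨j, hj⟩ := y_ne hy p
  apply mul_left_cancel₀ hj
  set ξ : Om → F := fun o => Qf (y o) * wx {0, 1} w (y o) with hξ
  have hq : 2 ^ h - 1 ≠ 0 := by
    have := Nat.one_lt_two_pow (n := h) (NeZero.ne h)
    omega
  -- evaluation at `p` by the delta function
  have hdelta : y p j * ξ p = ∑ o, y o j * ξ o * om (y p) (y o) ^ (2 ^ h - 1) := by
    have e1 : ∀ o, y o j * ξ o * om (y p) (y o) ^ (2 ^ h - 1)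
        = y o j * ξ o + (if o = p then y p j * ξ p else 0) := by
      intro o
      by_cases hop : o = p
      · subst hop
        rw [om_self, zero_pow hq, if_pos rfl, mul_zero, add_self']
      · rw [if_neg hop, ← hy.cq, FiniteField.pow_card_sub_one_eq_one _ (hy.off p o (Ne.symm hop)),
          mul_one, add_zero]
    rw [sum_congr rfl fun o _ => e1 o, sum_add_distrib, q_three l3 hy j w, zero_add,
      Finset.sum_ite_eq']
    simp
  rw [show Qf (y p) * wx {0, 1} w (y p) = ξ p from rfl, hdelta]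
  have e2 : ∀ o, y o j * ξ o * om (y p) (y o) ^ (2 ^ h - 1)
      = ∑ b : Fin 4, ∑ i : Fin 4, ∑ w' : ZMod h → Fin 4,
        (y p (Fin.rev b) * fr (1 : ZMod h) (y p (Fin.rev i)) *
          (if w' 0 = Fin.rev (w 0) ∧ w' 1 = Fin.rev (w 1) then wx {0, 1} (sg w') (y p) else 0)) *
        (Qf (y o) * (y o j * y o b) * fr (1 : ZMod h) (y o i) *
          (wx {0, 1} w (y o) * wx {0, 1} w' (y o))) := by
    intro o
    rw [kernel01 hy (y p) (y o) (Fin.rev (w 0)) (Fin.rev (w 1)), sum_mul_sum, sum_mul, mul_sum]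
    apply sum_congr rfl
    intro b _
    rw [sum_mul, mul_sum]
    apply sum_congr rfl
    intro i _
    rw [mul_sum, mul_sum]
    apply sum_congr rfl
    intro w' _
    simp only [hξ]
    ring
  rw [sum_congr rfl fun o _ => e2 o, sum_comm]
  have e3 : ∀ b : Fin 4, ∑ o, ∑ i : Fin 4, ∑ w' : ZMod h → Fin 4,
        (y p (Fin.rev b) * fr (1 : ZMod h) (y p (Fin.rev i)) *
          (if w' 0 = Fin.rev (w 0) ∧ w' 1 = Fin.rev (w 1) then wx {0, 1} (sg w') (y p) else 0)) *
        (Qf (y o) * (y o j * y o b) * fr (1 : ZMod h) (y o i) *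
          (wx {0, 1} w (y o) * wx {0, 1} w' (y o)))
      = (Jm F j b * y p (Fin.rev b)) * ∑ i : Fin 4, ∑ w' : ZMod h → Fin 4,
        fr (1 : ZMod h) (y p (Fin.rev i)) *
          ((if w' 0 = Fin.rev (w 0) ∧ w' 1 = Fin.rev (w 1) then wx {0, 1} (sg w') (y p) else 0)
            * TT y i w w') := by
    intro b
    rw [sum_comm, mul_sum]
    apply sum_congr rfl
    intro i _
    rw [sum_comm, mul_sum]
    apply sum_congr rfl
    intro w' _
    rw [← mul_sum, t_l4 F h Om y hy j b i w w']
    ring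
  rw [sum_congr rfl fun b _ => e3 b, ← sum_mul]
  congr 1
  · -- the digit 0 sum
    rw [Finset.sum_eq_single (Fin.rev j)]
    · rw [Fin.rev_rev]; unfold Jm; rw [if_pos rfl, one_mul]
    · intro b _ hb; unfold Jm; rw [if_neg hb, zero_mul]
    · intro hb; exact absurd (mem_univ _) hb
  · rw [← Equiv.sum_comp (Fin.revPerm : Equiv.Perm (Fin 4))]
    apply sum_congr rfl
    intro i _
    rw [Fin.revPerm_apply, Fin.rev_rev, ← mul_sum, ← Equiv.sum_comp (sgE h)]
    congr 1
    apply sum_congr rfl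
    intro w' _
    show (if sg w' 0 = Fin.rev (w 0) ∧ sg w' 1 = Fin.rev (w 1) then
      wx {0, 1} (sg (sg w')) (y p) else 0) * TT y (Fin.rev i) w (sg w') = _
    rw [sg_sg]
    have hiff : (sg w' 0 = Fin.rev (w 0) ∧ sg w' 1 = Fin.rev (w 1)) ↔ (w' 0 = w 0 ∧ w' 1 = w 1) := by
      unfold sg
      rw [Fin.rev_inj, Fin.rev_inj]
    by_cases hc : w' 0 = w 0 ∧ w' 1 = w 1
    · rw [if_pos hc, if_pos (hiff.mpr hc)]; ring
    · rw [if_neg hc, if_neg (fun e => hc (hiff.mp e))]; ring

theorem fr_wx (hy : Ovd F h Om y) (k : ZMod h) (w : ZMod h → Fin 4) (v : Fin 4 → F) :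
    fr k (wx {0, 1} (fun j => w (j + k)) v) = wx {k, k + 1} w v := by
  unfold wx
  rw [fr_prod]
  have e1 : ∀ j : ZMod h, fr k (fr j (v (w (j + k)))) = fr (j + k) (v (w (j + k))) := by
    intro j
    rw [fr_fr hy.cq, add_comm]
  rw [prod_congr rfl fun j _ => e1 j]
  refine Finset.prod_bij' (fun j _ => j + k) (fun j _ => j - k) ?_ ?_ ?_ ?_ ?_
  · intro j hj
    simp only [mem_compl, mem_insert, mem_singleton, not_or] at hj ⊢
    refine ⟨fun e => hj.1 ?_, fun e => hj.2 ?_⟩
    · simpa using e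
    · have : j + k - k = k + 1 - k := by rw [e]
      simpa using this
  · intro j hj
    simp only [mem_compl, mem_insert, mem_singleton, not_or] at hj ⊢
    refine ⟨fun e => hj.1 (sub_eq_zero.mp e), fun e => hj.2 ?_⟩
    rw [sub_eq_iff_eq_add] at e
    rw [e, add_comm]
  · intro j _; ring
  · intro j _; ring
  · intro j _; rfl

theorem t_l5k (l5 : L5Stmt) : L5kStmt := by
  classical
  intro F _ _ _ h _ Om _ y hy k w
  refine ⟨fun i w' => fr k (if w' k = w k ∧ w' (k + 1) = w (k + 1) then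
    TT y (Fin.rev i) (fun j => w (j + k)) (sg fun j => w' (j + k)) else 0), ?_⟩
  intro p
  have e1 := congrArg (fr k) (l5 F h Om y hy p (fun j => w (j + k)))
  rw [fr_mul, fr_wx hy, fr_sum] at e1
  rw [e1]
  apply sum_congr rfl
  intro i _
  rw [fr_mul, fr_fr hy.cq, fr_sum, mul_sum]
  let T : (ZMod h → Fin 4) ≃ (ZMod h → Fin 4) :=
    { toFun := fun w' j => w' (j + k)
      invFun := fun w' j => w' (j - k)
      left_inv := by intro w'; funext j; simp
      right_inv := by intro w'; funext j; simp }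
  rw [← Equiv.sum_comp T]
  apply sum_congr rfl
  intro w' _
  show fr (k + 1) (y p i) * fr k ((if w' (0 + k) = w (0 + k) ∧ w' (1 + k) = w (1 + k) then
    TT y (Fin.rev i) (fun j => w (j + k)) (sg fun j => w' (j + k)) else 0) *
      wx {0, 1} (fun j => w' (j + k)) (y p)) = _
  rw [fr_mul, fr_wx hy, zero_add, add_comm (1 : ZMod h) k]
  ring

end L5

end Pool.OVL
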